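import Mathlib
import Pool.Agent.K1H34.AKS.Cor

set_option autoImplicit false

/-!
# The constants `c(F)` and homomorphisms

If `F` has a homomorphism to a two-connected graph `H` then `c(F)` is at most a constant times `c(H)`;
for example, `c(F) < ∞` for all `r`-colourable `F` if (and only if) `c(K_r) < ∞`, `r ≥ 3`.

The main step is the duplication of one vertex, see the file `ThreeColourable` of this folder for the
idea (there the duplicated vertex is the dominating vertex of an almost bipartite graph).
-/

namespace Pool.Agent.Results.MP_349e33_co.Homomorphisms

open Pool.Agent.TH855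
open scoped ENNReal

/-- Let `H` be a finite graph with at least three vertices that remains connected on deleting any
vertex. If the finite graph `F` has a homomorphism to `H`, then
`c(F) ≤ (2 (|F| + |H|)) ^ |H| c(H)`. -/
theorem result {W U : Type} [Fintype W] [Fintype U] (F : SimpleGraph W) (H : SimpleGraph U)
    (h3 : 3 ≤ Fintype.card U) (hH : ∀ x, (H.induce {z | z ≠ x}).Connected)
    (hom : Nonempty (F →g H)) :
    c F ≤ (2 * ((Fintype.card W + Fintype.card U : ℕ) : ℝ≥0∞)) ^ Fintype.card U * c H := by
  obtain ⟨f⟩ := hom
  exact Pool.Agent.K1H34.AKS.hom_bound F H h3 hH f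

end Pool.Agent.Results.MP_349e33_co.Homomorphisms
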