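import Mathlib
import Pool.Agent.K1H34.UNI.Cor

set_option autoImplicit false

/-!
# One constant bounds `c(F)` for all graphs `F` that can be coloured with three colours

The conjecture that `c(F) ≤ c` for one absolute constant `c` was known for almost bipartite graphs
`F` only. We prove it for all graphs `F` of chromatic number at most three.

Idea. Let `G` be a graph of maximum degree at most `Δ` in which every `K(t, t)` has at most `s`
common neighbours. A random independent set is built in small steps: every vertex `v` that is still
free has a weight, it is activated with a probability proportional to the weight, and the weight is
multiplied at every step by the inverse of the probability that no neighbour is activated, so that
it is a martingale (it is `0` as soon as a neighbour is activated). The weights may grow up to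
`Δ^(1/4)` and the sums of the weights over neighbourhoods up to `Δ^(1 + ε)`; a potential function
shows that a vertex survives these caps with probability at least `4/5` in the measure biased by its
weight, if the weighted number of edges in its neighbourhood is small in this measure. As every
`K(t, t)` has few common neighbours, the weighted number of copies of `K(t, t)` in the neighbourhood
is small for all but `Δ^(-1/2)` of the vertices, whatever the set of participating vertices is.
The exceptional vertices form the next level, and so on; the levels are found simultaneously with
the theorem of Brouwer, as a fixed point for fuzzy sets of participants of different processes. Two
palettes are enough for all levels. The whole process is local, and many independent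
copies, a concentration inequality and the local lemma halve all degrees with `O(Δ / log Δ)` colours.
-/

namespace Pool.Agent.Results.MP_349e33_co.OneConstant

open Pool.Agent.TH855
open scoped ENNReal

/-- `c(F) ≤ 1400` for every finite graph `F` with a proper `3`-colouring. -/
theorem result {W : Type} [Fintype W] (F : SimpleGraph W) (hF : F.Colorable 3) : c F ≤ 1400 :=
  Pool.Agent.K1H34.UNI.c_three F hF

end Pool.Agent.Results.MP_349e33_co.OneConstant
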