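import Mathlib
import Pool.Agent.K1H34.AKS.Cor

set_option autoImplicit false

/-!
# `c(F)` is finite for every graph `F` that can be coloured with three colours

The conjecture of Alon, Krivelevich and Sudakov (`c(F) < ∞` for every `F`) was known for almost
bipartite graphs `F`. We prove it for all graphs of chromatic number three, with a linear bound.

Idea. Let `F` be the complete tripartite graph with the classes `A`, `B`, `I`, let `k = |A| + |B|`,
and let `G` be `F`-free of maximum degree `Δ`. A complete bipartite graph `K(A, B)` in `G` has fewer
than `|I|` common neighbours. Therefore every set `W` of vertices of `G` spans at most
`O(Δ^(k - 1)) |W|` copies of the join of `K(A, B)` with one vertex, and all but `Δ^(-η) |W|` of its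
vertices are in at most `O(Δ^(k - 1 + η))` of them. But the few exceptional vertices may be adjacent
to all the others. The vertices are divided into levels, by the least fixed point of a monotone
operation: the next level consists of the exceptional vertices of this level and of all vertices that
have at least `Δ^(1 - β)` neighbours two levels further. As `β < η`, the sizes of the levels
decrease geometrically, so this ends. Colour the levels of different parity with disjoint palettes,
and partition everything at random into `Δ^(1 - θ)` parts, `θ < 1 / (k + 1)`. By the local lemma
almost no vertex has a neighbour of its parity in another level or is in a copy of the join, inside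
of its part. The rest can be coloured, as `c(H) ≤ 1` for almost bipartite graphs `H`.
-/

namespace Pool.Agent.Results.MP_349e33_co.ThreeColourable

open Pool.Agent.TH855
open scoped ENNReal

/-- Let `C` be a proper colouring of the finite graph `F` with three colours, and let `m` be the
number of vertices outside one of its colour classes. Then `c(F) ≤ 2 (m + 1)`. -/
theorem result {W : Type} [Fintype W] (F : SimpleGraph W) (C : F.Coloring (Fin 3)) (i : Fin 3) :
    c F ≤ 2 * ((Nat.card {w : W // C w ≠ i} + 1 : ℕ) : ℝ≥0∞) := by
  classical
  have h := Pool.Agent.K1H34.AKS.three_bound F C i
  rwa [← Nat.card_eq_fintype_card] at h

end Pool.Agent.Results.MP_349e33_co.ThreeColourable
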